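import Pool.Agent.H53.TFC.Siz
import Pool.Agent.H96.GEO.Geo2

/-!
# The fields `cnt₁` and `cnt₀` for the class of the bodies

The points of the lines in the coarse cell of a pair of labels are counted by each of the two labels.
-/

set_option autoImplicit false

namespace Pool.GC

open Finset Real
open Pool.Agent.H49.Ent Pool.Agent.H32.Dense Pool.STK Pool.KA
open Pool.LAT
open Pool.KNH (LA LB Ln GS)
open Pool.KNB (nJ)
open Pool.TRN (TD TF Pair nz nz_isLaw nz_pos nz_fst zc)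

variable {m E : ℕ} {P : Par m E} {b : BP} {Cg g : ℕ}

/-- The entropy of the number. -/
theorem ch_num {Ω γ : Type} [Fintype Ω] {p : Ω → ℝ} (hp : IsLaw p) (n : Ω → ℕ) (V : Ω → γ) (K : ℕ)
    (h : ∀ ω, 0 < p ω → n ω < 2 ^ K) : CH p n V ≤ K * Real.log 2 := by
  have h1 := CH_le_card hp.nonneg hp.sum_one n V (fun _ => Finset.range (2 ^ K)) fun ω hω =>
    Finset.mem_range.2 (h ω hω)
  rw [Ex_const hp.sum_one, Finset.card_range] at h1
  push_cast at h1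
  rw [Real.log_pow] at h1
  exact h1

/-- The time of a point. -/
theorem tim_mem {w t K n : ℕ} (hn : n < 2 ^ K) :
    ((t : ℝ) + (n : ℝ) / 2 ^ K) / 2 ^ w ∈ win w t := by
  have h1 : (n : ℝ) / 2 ^ K ≤ 1 := by
    rw [div_le_one (by positivity)]
    exact_mod_cast hn.le
  have h2 : (0 : ℝ) ≤ (n : ℝ) / 2 ^ K := by positivity
  exact ⟨div_le_div_of_nonneg_right (by linarith) (by positivity),
    div_le_div_of_nonneg_right (by linarith) (by positivity)⟩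

section lines

variable {J w l : ℕ} {c : Cc m E} {k a : ℕ} {x x' : Ln m} {t t₀ t₁ : ℕ} {v v₀ v₁ : Vl m E}

/-- Two lines of a label, the body of the label. -/
theorem two_own (hC : Cur m E Cg) (h : okv P J w c k a x t v) (h' : okv P J w c k a x' t v)
    {s : ℝ} (hs : s ∈ win (w + v.al) (v.sw t)) (j : Fin (nJ m E)) :
    |v.c.B.fn j (phl E x s) - v.c.B.fn j (phl E x' s)| ≤ 2 ^ (Cg + 1) := by
  have h1 := hC.grow v.c.B x x' (w + v.al) 0 (v.sw t) (v.sw t) 2 (by norm_num) (by simp)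
    (fun i j => by
      have e1 := h.mem i j
      have e2 := h'.mem i j
      rw [add_zero]
      have e3 := abs_sub_le (v.c.B.fn j (phl E x (nod (dD m E) (w + v.al) (v.sw t) i)))
        (v.c.cd i j) (v.c.B.fn j (phl E x' (nod (dD m E) (w + v.al) (v.sw t) i)))
      rw [abs_sub_comm (v.c.cd i j : ℝ)] at e3
      linarith) s hs j
  rw [mul_zero, add_zero] at h1
  rw [pow_succ]
  exact h1

/-- The values of a multiple. -/
theorem scl_diff {B : Bd (nJ m E)} {x x' : Ln m} {s : ℝ} {M c : ℕ}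
    (h : phl E x s - phl E x' s ∈ B.mul (2 ^ M)) (hc : M ≤ c) (j : Fin (nJ m E)) :
    |(scl c B).fn j (phl E x s) - (scl c B).fn j (phl E x' s)| ≤ 1 := by
  have h1 := Bd.mem_mul_iff.1 h j
  rw [sub_fn] at h1
  rw [scl_fn, scl_fn, ← mul_sub, abs_mul, abs_of_pos (by positivity)]
  have h2 : (2 : ℝ) ^ (-(c : ℤ)) * |B.fn j (phl E x s) - B.fn j (phl E x' s)| ≤
      2 ^ (-(c : ℤ)) * 2 ^ M := mul_le_mul_of_nonneg_left h1 (by positivity)
  refine h2.trans ?_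
  rw [zpow_neg, zpow_natCast, inv_mul_le_iff₀ (by positivity), mul_one]
  exact pow_le_pow_right₀ (by norm_num) hc

end lines

/-- **The points are counted by the label of their window.** -/
theorem cnt_one (hC : Cur m E Cg) (hW : CntW m E) (c₄ : ℕ) (hc₄ : 2 * nJ m E + Cg + 4 ≤ c₄) :
    ∃ C : ℝ, 0 ≤ C ∧ ∀ (P : Par m E) (b : BP) (g : ℕ) (κ : ℝ), Cst P b Cg g → b.c₄ = c₄ →
    ∀ (J w l : ℕ), 1 ≤ l → w + l ≤ J → ∀ (F : Fam m J) (c : F.ζ → Cc m E) (k a : ℕ)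
      (s : ShV (nJ m E)) (t₀ : F.Ω → ℕ) (b₀ b₁ : F.Ω → Vl m E),
      Pair (P.td b κ) F w l c k a s t₀ b₀ b₁ →
    CH (nz F.p ((P.td b κ).N J (w + l) ((P.gs b).rg s))) ((P.td b κ).Y F w l c k a s t₀ b₀)
      (fun e => (zc (P.gs b) F w l c k a s t₀ b₀ e.1,
        ((F.T e.1 / 2 ^ (J - (w + l)), b₁ e.1), F.Z e.1))) ≤
      Ex F.p ((P.td b κ).UU F w l c k a s t₀ b₀) +
      Ex F.p (fun ω => (P.td b κ).cap J (w + l) (F.l ω) (F.T ω / 2 ^ (J - (w + l))) (b₁ ω)) +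
      C * Real.log (2 + (P.gs b).rg s) := by
  obtain ⟨C, hC0, hcnt⟩ := hW (2 ^ (Cg + 1))
  have hlog2 : 0 < Real.log 2 := Real.log_pos (by norm_num)
  obtain ⟨D, hD⟩ : ∃ D : ℝ, D = Real.log (m + 6 * Cg + m * c₄ + 3) / Real.log 2 + 1 := ⟨_, rfl⟩
  have hD0 : 0 ≤ D := by
    have h4 : 0 ≤ Real.log (m + 6 * Cg + m * c₄ + 3) := Real.log_nonneg (by
      have : (0 : ℝ) ≤ (m : ℝ) * c₄ := by positivity
      have : (0 : ℝ) ≤ (m : ℝ) := Nat.cast_nonneg _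
      have : (0 : ℝ) ≤ (Cg : ℝ) := Nat.cast_nonneg _
      linarith)
    rw [hD]
    positivity
  refine ⟨C * D, mul_nonneg hC0 hD0, ?_⟩
  intro P b g κ hP hbc J w l hl hwJ F c k a s t₀ b₀ b₁ hPr
  obtain ⟨K, hK⟩ : ∃ K : ℕ, K = (P.gs b).rg s - b.c₁ := ⟨_, rfl⟩
  obtain ⟨T1, hT1⟩ : ∃ T1 : F.Ω → ℕ, T1 = fun ω => F.T ω / 2 ^ (J - (w + l)) := ⟨_, rfl⟩
  have hpr : ∀ ω, 0 < F.p ω → Pr P J w l (c (F.Z ω)) k a (F.l ω) (t₀ ω) (T1 ω) (b₀ ω) (b₁ ω) ∧
      shv b l (b₀ ω) (b₁ ω) = s := by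
    intro ω hω
    obtain ⟨h1, h2, -, -⟩ := hPr ω hω
    rw [hT1]
    exact ⟨pr_of hl hwJ h1, h2⟩
  have hN : 0 < 2 ^ K := by positivity
  have hnz := nz_isLaw (N := 2 ^ K) F.isLaw hN
  have hpos : ∀ e : F.Ω × Fin (2 ^ K), 0 < nz F.p (2 ^ K) e → 0 < F.p e.1 := fun e he =>
    (nz_pos hN).1 he
  obtain ⟨z, hz⟩ : ∃ z : F.Ω → Cc m E, z = fun ω => crv P b J w l (c (F.Z ω)) k a (t₀ ω) (b₀ ω) s :=
    ⟨_, rfl⟩
  have hzB : ∀ ω, (z ω).c.B = crB P b a (c (F.Z ω)).c.B (b₀ ω).c.B s := by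
    intro ω
    rw [hz]
    rfl
  have hmain := hcnt (F.Ω × Fin (2 ^ K)) (Cc m E × ((ℕ × Vl m E) × F.ζ)) inferInstance
    (nz F.p (2 ^ K)) hnz J K (w + l) (w + l) (rC m Cg c₄ ((P.gs b).rg s)) (fun e => F.l e.1)
    (fun e => T1 e.1) (fun e => (e.2 : ℕ)) (fun e => T1 e.1) (fun e => w + l + (b₁ e.1).al)
    (fun e => (b₁ e.1).sw (T1 e.1)) (fun e => scl b.c₄ (z e.1).c.B) (fun e => (b₁ e.1).c.B)
    (fun e => (z e.1).sz) (fun e => (b₁ e.1).sz)
    (fun e => (z e.1, ((T1 e.1, b₁ e.1), F.Z e.1))) (by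
      intro e e' _ _ hV
      have h1 : z e.1 = z e'.1 := (Prod.ext_iff.1 hV).1
      have h2 : T1 e.1 = T1 e'.1 := (Prod.ext_iff.1 (Prod.ext_iff.1 (Prod.ext_iff.1 hV).2).1).1
      have h3 : b₁ e.1 = b₁ e'.1 := (Prod.ext_iff.1 (Prod.ext_iff.1 (Prod.ext_iff.1 hV).2).1).2
      simp only [h1, h2, h3, and_self]) (by
      intro e he
      obtain ⟨h1, -⟩ := hpr e.1 (hpos e he)
      refine ⟨h1.ok₁.box, e.2.2, h1.ok₁.tlt, Nat.le_add_right _ _, ?_, h1.ok₁.tlt,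
        tim_mem e.2.2⟩
      rw [Nat.add_sub_cancel_left]
      exact sw_div h1.ok₁.sb) (by
      intro e he
      obtain ⟨h1, hs⟩ := hpr e.1 (hpos e he)
      have h2 := h1.siz (b := b) hC hP
      have h3 := h1.dom₁ (b := b) hC hP
      rw [hs, hbc] at h2
      rw [hs] at h3
      have e1 : (crv P b J w l (c (F.Z e.1)) k a (t₀ e.1) (b₀ e.1) s).sz = (z e.1).sz := by
        rw [hz]
      rw [e1, ← hzB, ← hbc] at h2
      rw [← hzB] at h3
      have hK' : rgv b s - b.c₁ = K := hK.symm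
      rw [hK'] at h3
      refine ⟨h1.ok₁.sz, ?_, ?_, h3.trans ?_⟩
      · rw [← hbc]
        exact h2.1
      · rw [← hbc]
        exact h2.2
      · have hS : 0 ≤ SJ (scl b.c₄ (z e.1).c.B) (w + l) (T1 e.1) (F.l e.1) := by
          have := h2.1
          exact le_trans (by positivity) this
        refine mul_le_mul_of_nonneg_right ?_ hS
        have f1 : (1 : ℝ) ≤ 2 ^ (Cg + 1) := one_le_pow₀ (by norm_num)
        have f2 : (1 : ℝ) ≤ 2 ^ (m * (w + l + (b₁ e.1).al - (w + l))) :=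
          one_le_pow₀ (by norm_num)
        have f3 : (0 : ℝ) < 2 ^ K := by positivity
        calc (2 : ℝ) ^ K = 1 * 2 ^ K * 1 := by ring
          _ ≤ 2 ^ (Cg + 1) * 2 ^ K * 2 ^ (m * (w + l + (b₁ e.1).al - (w + l))) :=
            mul_le_mul (mul_le_mul_of_nonneg_right f1 f3.le) f2 zero_le_one (by positivity)) (by
      intro e e' he he' hV
      obtain ⟨h1, hs⟩ := hpr e.1 (hpos e he)
      obtain ⟨h1', -⟩ := hpr e'.1 (hpos e' he')
      have g2 : T1 e.1 = T1 e'.1 := (Prod.ext_iff.1 (Prod.ext_iff.1 (Prod.ext_iff.1 hV).2).1).1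
      have g3 : b₁ e.1 = b₁ e'.1 := (Prod.ext_iff.1 (Prod.ext_iff.1 (Prod.ext_iff.1 hV).2).1).2
      have g4 : F.Z e.1 = F.Z e'.1 := (Prod.ext_iff.1 (Prod.ext_iff.1 hV).2).2
      have k1 := h1'.ok₁
      rw [← g2, ← g3, ← g4] at k1
      constructor
      · intro u hu j
        have hu' : u ∈ win w (T1 e.1 / 2 ^ l) := win_sub rfl hu
        have h2 := h1.two_cr₁ (b := b) hC hP k1 hu'
        rw [hs, ← hzB] at h2
        exact scl_diff h2 (hbc.symm ▸ hc₄) j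
      · intro u hu j
        exact two_own hC h1.ok₁ k1 hu j)
  have e1 : CH (nz F.p (2 ^ K)) (fun e => (e.2 : ℕ)) (fun e => (z e.1, ((T1 e.1, b₁ e.1), F.Z e.1))) ≤
      K * Real.log 2 := ch_num hnz _ _ K fun e _ => e.2.2
  have e2 : Ex (nz F.p (2 ^ K)) (fun e => pU J K (w + l) (scl b.c₄ (z e.1).c.B) (F.l e.1) (T1 e.1) -
      K * Real.log 2 + ((m : ℝ) * J - (b₁ e.1).sz + m * (((w + l + (b₁ e.1).al : ℕ) : ℝ) -
        ((w + l : ℕ) : ℝ))) * Real.log 2) =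
      Ex F.p (fun ω => pU J K (w + l) (scl b.c₄ (z ω).c.B) (F.l ω) (T1 ω)) +
      Ex F.p (fun ω => capv J (b₁ ω)) - K * Real.log 2 := by
    rw [(nz_fst hN).Ex_eq (fun ω => pU J K (w + l) (scl b.c₄ (z ω).c.B) (F.l ω) (T1 ω) -
      K * Real.log 2 + ((m : ℝ) * J - (b₁ ω).sz + m * (((w + l + (b₁ ω).al : ℕ) : ℝ) -
        ((w + l : ℕ) : ℝ))) * Real.log 2)]
    have e3 : (fun ω => pU J K (w + l) (scl b.c₄ (z ω).c.B) (F.l ω) (T1 ω) -
      K * Real.log 2 + ((m : ℝ) * J - (b₁ ω).sz + m * (((w + l + (b₁ ω).al : ℕ) : ℝ) -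
        ((w + l : ℕ) : ℝ))) * Real.log 2) = fun ω =>
        (pU J K (w + l) (scl b.c₄ (z ω).c.B) (F.l ω) (T1 ω) + capv J (b₁ ω)) - K * Real.log 2 := by
      funext ω
      unfold capv
      push_cast
      ring
    rw [e3, Ex_sub, Ex_add, Ex_const F.isLaw.sum_one]
  have e3 : C * Real.log (2 + (rC m Cg c₄ ((P.gs b).rg s) : ℕ)) ≤
      C * D * Real.log (2 + (P.gs b).rg s) := by
    rw [mul_assoc, hD]
    exact mul_le_mul_of_nonneg_left (log_rC m Cg c₄ _) hC0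
  rw [e2] at hmain
  have hfin : CH (nz F.p (2 ^ K)) (fun e => pYf K (w + l) (scl b.c₄ (z e.1).c.B) (F.l e.1) (T1 e.1)
      (e.2 : ℕ)) (fun e => (z e.1, ((T1 e.1, b₁ e.1), F.Z e.1))) ≤
      Ex F.p (fun ω => pU J K (w + l) (scl b.c₄ (z ω).c.B) (F.l ω) (T1 ω)) +
      Ex F.p (fun ω => capv J (b₁ ω)) + C * D * Real.log (2 + (P.gs b).rg s) := by
    linarith
  subst hK
  subst hT1
  subst hz
  exact hfin

/-- **The points are counted by the label of another window.** -/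
theorem cnt_zero (hC : Cur m E Cg) (hW : CntW m E) (c₄ : ℕ) (hc₄ : 2 * nJ m E + Cg + 4 ≤ c₄) :
    ∃ C : ℝ, 0 ≤ C ∧ ∀ (P : Par m E) (b : BP) (g : ℕ) (κ : ℝ), Cst P b Cg g → b.c₄ = c₄ →
    ∀ (J w l : ℕ), 1 ≤ l → w + l ≤ J → ∀ (F : Fam m J) (c : F.ζ → Cc m E) (k a : ℕ)
      (s : ShV (nJ m E)) (t₀ : F.Ω → ℕ) (b₀ b₁ : F.Ω → Vl m E),
      Pair (P.td b κ) F w l c k a s t₀ b₀ b₁ →
    CH (nz F.p ((P.td b κ).N J (w + l) ((P.gs b).rg s))) ((P.td b κ).Y F w l c k a s t₀ b₀)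
      (fun e => (zc (P.gs b) F w l c k a s t₀ b₀ e.1, ((t₀ e.1, b₀ e.1), F.Z e.1))) ≤
      Ex F.p ((P.td b κ).UU F w l c k a s t₀ b₀) +
      Ex F.p (fun ω => (P.td b κ).cap J (w + l) (F.l ω) (t₀ ω) (b₀ ω)) +
      C * (l + Ex F.p (fun ω => (P.cls.age (b₀ ω) : ℝ))) + C * Real.log (2 + (P.gs b).rg s) := by
  obtain ⟨C, hC0, hcnt⟩ := hW (2 ^ (Cg + 1))
  have hlog2 : 0 < Real.log 2 := Real.log_pos (by norm_num)
  obtain ⟨D, hD⟩ : ∃ D : ℝ, D = Real.log (m + 6 * Cg + m * c₄ + 3) / Real.log 2 + 1 := ⟨_, rfl⟩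
  have hD0 : 0 ≤ D := by
    have h4 : 0 ≤ Real.log (m + 6 * Cg + m * c₄ + 3) := Real.log_nonneg (by
      have : (0 : ℝ) ≤ (m : ℝ) * c₄ := by positivity
      have : (0 : ℝ) ≤ (m : ℝ) := Nat.cast_nonneg _
      have : (0 : ℝ) ≤ (Cg : ℝ) := Nat.cast_nonneg _
      linarith)
    rw [hD]
    positivity
  have hm0 : (0 : ℝ) ≤ m := Nat.cast_nonneg m
  refine ⟨C * D + (m + 1) * Real.log 2, by positivity, ?_⟩
  intro P b g κ hP hbc J w l hl hwJ F c k a s t₀ b₀ b₁ hPr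
  obtain ⟨K, hK⟩ : ∃ K : ℕ, K = (P.gs b).rg s - b.c₁ := ⟨_, rfl⟩
  obtain ⟨T1, hT1⟩ : ∃ T1 : F.Ω → ℕ, T1 = fun ω => F.T ω / 2 ^ (J - (w + l)) := ⟨_, rfl⟩
  have hpr : ∀ ω, 0 < F.p ω → Pr P J w l (c (F.Z ω)) k a (F.l ω) (t₀ ω) (T1 ω) (b₀ ω) (b₁ ω) ∧
      shv b l (b₀ ω) (b₁ ω) = s := by
    intro ω hω
    obtain ⟨h1, h2, -, -⟩ := hPr ω hω
    rw [hT1]
    exact ⟨pr_of hl hwJ h1, h2⟩
  have hN : 0 < 2 ^ K := by positivity
  have hnz := nz_isLaw (N := 2 ^ K) F.isLaw hN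
  have hpos : ∀ e : F.Ω × Fin (2 ^ K), 0 < nz F.p (2 ^ K) e → 0 < F.p e.1 := fun e he =>
    (nz_pos hN).1 he
  obtain ⟨z, hz⟩ : ∃ z : F.Ω → Cc m E, z = fun ω => crv P b J w l (c (F.Z ω)) k a (t₀ ω) (b₀ ω) s :=
    ⟨_, rfl⟩
  have hzB : ∀ ω, (z ω).c.B = crB P b a (c (F.Z ω)).c.B (b₀ ω).c.B s := by
    intro ω
    rw [hz]
    rfl
  have hmain := hcnt (F.Ω × Fin (2 ^ K)) (ℕ × (Cc m E × ((ℕ × Vl m E) × F.ζ))) inferInstance
    (nz F.p (2 ^ K)) hnz J K (w + l) w (rC m Cg c₄ ((P.gs b).rg s)) (fun e => F.l e.1)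
    (fun e => T1 e.1) (fun e => (e.2 : ℕ)) (fun e => T1 e.1 / 2 ^ l)
    (fun e => w + (l + (b₀ e.1).al))
    (fun e => (b₀ e.1).sw (t₀ e.1)) (fun e => scl b.c₄ (z e.1).c.B) (fun e => (b₀ e.1).c.B)
    (fun e => (z e.1).sz) (fun e => (b₀ e.1).sz)
    (fun e => (T1 e.1, (z e.1, ((t₀ e.1, b₀ e.1), F.Z e.1)))) (by
      intro e e' _ _ hV
      have h0 : T1 e.1 = T1 e'.1 := (Prod.ext_iff.1 hV).1
      have hV' := (Prod.ext_iff.1 hV).2
      have h1 : z e.1 = z e'.1 := (Prod.ext_iff.1 hV').1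
      have h2 : t₀ e.1 = t₀ e'.1 := (Prod.ext_iff.1 (Prod.ext_iff.1 (Prod.ext_iff.1 hV').2).1).1
      have h3 : b₀ e.1 = b₀ e'.1 := (Prod.ext_iff.1 (Prod.ext_iff.1 (Prod.ext_iff.1 hV').2).1).2
      simp only [h0, h1, h2, h3, and_self]) (by
      intro e he
      obtain ⟨h1, -⟩ := hpr e.1 (hpos e he)
      refine ⟨h1.ok₁.box, e.2.2, h1.ok₁.tlt, Nat.le_add_right _ _, ?_, ?_,
        win_sub rfl (tim_mem e.2.2)⟩
      · rw [Nat.add_sub_cancel_left, sw_div' h1.ok₀.sb, h1.tt]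
      · have h6 := h1.ok₁.tlt
        rw [pow_add] at h6
        exact Nat.div_lt_of_lt_mul (by rw [mul_comm]; exact h6)) (by
      intro e he
      obtain ⟨h1, hs⟩ := hpr e.1 (hpos e he)
      have h2 := h1.siz (b := b) hC hP
      have h3 := h1.dom₀ (b := b) hC hP
      rw [hs, hbc] at h2
      rw [hs] at h3
      have e1 : (crv P b J w l (c (F.Z e.1)) k a (t₀ e.1) (b₀ e.1) s).sz = (z e.1).sz := by
        rw [hz]
      rw [e1, ← hzB, ← hbc] at h2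
      rw [← hzB] at h3
      have hK' : rgv b s - b.c₁ = K := hK.symm
      rw [hK'] at h3
      refine ⟨?_, ?_, ?_, h3.trans ?_⟩
      · have := h1.ok₀.sz
        rw [add_assoc] at this
        exact this
      · rw [← hbc]
        exact h2.1
      · rw [← hbc]
        exact h2.2
      · have hS : 0 ≤ SJ (scl b.c₄ (z e.1).c.B) (w + l) (T1 e.1) (F.l e.1) := by
          have := h2.1
          exact le_trans (by positivity) this
        refine mul_le_mul_of_nonneg_right ?_ hS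
        have f1 : (1 : ℝ) ≤ 2 ^ (Cg + 1) := one_le_pow₀ (by norm_num)
        have f2 : (1 : ℝ) ≤ 2 ^ (m * (w + (l + (b₀ e.1).al) - w)) :=
          one_le_pow₀ (by norm_num)
        have f3 : (0 : ℝ) < 2 ^ K := by positivity
        calc (2 : ℝ) ^ K = 1 * 2 ^ K * 1 := by ring
          _ ≤ 2 ^ (Cg + 1) * 2 ^ K * 2 ^ (m * (w + (l + (b₀ e.1).al) - w)) :=
            mul_le_mul (mul_le_mul_of_nonneg_right f1 f3.le) f2 zero_le_one (by positivity)) (by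
      intro e e' he he' hV
      obtain ⟨h1, hs⟩ := hpr e.1 (hpos e he)
      obtain ⟨h1', -⟩ := hpr e'.1 (hpos e' he')
      have hV' := (Prod.ext_iff.1 hV).2
      have g2 : t₀ e.1 = t₀ e'.1 := (Prod.ext_iff.1 (Prod.ext_iff.1 (Prod.ext_iff.1 hV').2).1).1
      have g3 : b₀ e.1 = b₀ e'.1 := (Prod.ext_iff.1 (Prod.ext_iff.1 (Prod.ext_iff.1 hV').2).1).2
      have g4 : F.Z e.1 = F.Z e'.1 := (Prod.ext_iff.1 (Prod.ext_iff.1 hV').2).2
      have k1 := h1'.ok₀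
      rw [← g2, ← g3, ← g4] at k1
      constructor
      · intro u hu j
        have hu' : u ∈ win w (t₀ e.1 / 2 ^ l) := by
          rw [h1.tt]
          exact hu
        have h2 := two_cr (b := b) hC hP h1.l1 h1.cw h1.ok₀ k1 (sh := s) (by
          rw [← hs]
          exact h1.q_eq.symm) hu'
        rw [← hzB] at h2
        exact scl_diff h2 (by rw [hbc]; omega) j
      · intro u hu j
        have hu' : u ∈ win (w + l + (b₀ e.1).al) ((b₀ e.1).sw (t₀ e.1)) := by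
          rw [add_assoc]
          exact hu
        exact two_own hC h1.ok₀ k1 hu' j)
  have e1 : CH (nz F.p (2 ^ K)) (fun e => (e.2 : ℕ))
      (fun e => (T1 e.1, (z e.1, ((t₀ e.1, b₀ e.1), F.Z e.1)))) ≤
      K * Real.log 2 := ch_num hnz _ _ K fun e _ => e.2.2
  have e2 : Ex (nz F.p (2 ^ K)) (fun e => pU J K (w + l) (scl b.c₄ (z e.1).c.B) (F.l e.1) (T1 e.1) -
      K * Real.log 2 + ((m : ℝ) * J - (b₀ e.1).sz + m * (((w + (l + (b₀ e.1).al) : ℕ) : ℝ) -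
        (w : ℝ))) * Real.log 2) =
      Ex F.p (fun ω => pU J K (w + l) (scl b.c₄ (z ω).c.B) (F.l ω) (T1 ω)) +
      Ex F.p (fun ω => capv J (b₀ ω)) + (m * l * Real.log 2 - K * Real.log 2) := by
    rw [(nz_fst hN).Ex_eq (fun ω => pU J K (w + l) (scl b.c₄ (z ω).c.B) (F.l ω) (T1 ω) -
      K * Real.log 2 + ((m : ℝ) * J - (b₀ ω).sz + m * (((w + (l + (b₀ ω).al) : ℕ) : ℝ) -
        (w : ℝ))) * Real.log 2)]
    have e3 : (fun ω => pU J K (w + l) (scl b.c₄ (z ω).c.B) (F.l ω) (T1 ω) -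
      K * Real.log 2 + ((m : ℝ) * J - (b₀ ω).sz + m * (((w + (l + (b₀ ω).al) : ℕ) : ℝ) -
        (w : ℝ))) * Real.log 2) = fun ω =>
        (pU J K (w + l) (scl b.c₄ (z ω).c.B) (F.l ω) (T1 ω) + capv J (b₀ ω)) +
          (m * l * Real.log 2 - K * Real.log 2) := by
      funext ω
      unfold capv
      push_cast
      ring
    rw [e3, Ex_add, Ex_add, Ex_const F.isLaw.sum_one]
  have e3 : C * Real.log (2 + (rC m Cg c₄ ((P.gs b).rg s) : ℕ)) ≤
      C * D * Real.log (2 + (P.gs b).rg s) := by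
    rw [mul_assoc, hD]
    exact mul_le_mul_of_nonneg_left (log_rC m Cg c₄ _) hC0
  rw [e2] at hmain
  -- the digits of the block
  have e4 := CH_le_add hnz.nonneg (fun e : F.Ω × Fin (2 ^ K) =>
    pYf K (w + l) (scl b.c₄ (z e.1).c.B) (F.l e.1) (T1 e.1) (e.2 : ℕ)) (fun e => T1 e.1)
    (fun e => (z e.1, ((t₀ e.1, b₀ e.1), F.Z e.1)))
  have e5 : CH (nz F.p (2 ^ K)) (fun e => T1 e.1)
      (fun e => (z e.1, ((t₀ e.1, b₀ e.1), F.Z e.1))) ≤ l * Real.log 2 := by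
    have h5 := CH_le_card hnz.nonneg hnz.sum_one (fun e => T1 e.1)
      (fun e => (z e.1, ((t₀ e.1, b₀ e.1), F.Z e.1)))
      (fun q => (Finset.range (2 ^ l)).image fun i => q.2.1.1 / 2 ^ l * 2 ^ l + i) (by
        intro e he
        obtain ⟨h1, -⟩ := hpr e.1 (hpos e he)
        rw [Finset.mem_image]
        refine ⟨T1 e.1 % 2 ^ l, Finset.mem_range.2 (Nat.mod_lt _ (by positivity)), ?_⟩
        show t₀ e.1 / 2 ^ l * 2 ^ l + T1 e.1 % 2 ^ l = T1 e.1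
        rw [h1.tt]
        exact Nat.div_add_mod' _ _)
    refine h5.trans ?_
    have h6 : ∀ e : F.Ω × Fin (2 ^ K), Real.log (((Finset.range (2 ^ l)).image fun i =>
        t₀ e.1 / 2 ^ l * 2 ^ l + i).card) ≤ l * Real.log 2 := by
      intro e
      have h7 : ((Finset.range (2 ^ l)).image fun i => t₀ e.1 / 2 ^ l * 2 ^ l + i).card ≤ 2 ^ l :=
        Finset.card_image_le.trans (Finset.card_range _).le
      have h8 : 0 < ((Finset.range (2 ^ l)).image fun i => t₀ e.1 / 2 ^ l * 2 ^ l + i).card := by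
        refine Finset.card_pos.2 (Finset.Nonempty.image ⟨0, ?_⟩ _)
        exact Finset.mem_range.2 (by positivity)
      have h9 : Real.log (((Finset.range (2 ^ l)).image fun i =>
          t₀ e.1 / 2 ^ l * 2 ^ l + i).card) ≤ Real.log ((2 : ℝ) ^ l) :=
        Real.log_le_log (by exact_mod_cast h8) (by exact_mod_cast h7)
      rwa [Real.log_pow] at h9
    refine (Ex_mono hnz.nonneg (g := fun _ => l * Real.log 2) fun e _ => h6 e).trans ?_
    rw [Ex_const hnz.sum_one]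
  have hfin : CH (nz F.p (2 ^ K)) (fun e => pYf K (w + l) (scl b.c₄ (z e.1).c.B) (F.l e.1) (T1 e.1)
      (e.2 : ℕ)) (fun e => (z e.1, ((t₀ e.1, b₀ e.1), F.Z e.1))) ≤
      Ex F.p (fun ω => pU J K (w + l) (scl b.c₄ (z ω).c.B) (F.l ω) (T1 ω)) +
      Ex F.p (fun ω => capv J (b₀ ω)) +
      (C * D + (m + 1) * Real.log 2) * (l + Ex F.p (fun ω => ((b₀ ω).al : ℝ))) +
      (C * D + (m + 1) * Real.log 2) * Real.log (2 + (P.gs b).rg s) := by
    have f1 : 0 ≤ Ex F.p (fun ω => ((b₀ ω).al : ℝ)) :=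
      Ex_nonneg F.isLaw.nonneg fun ω _ => Nat.cast_nonneg _
    have f2 : (0 : ℝ) ≤ l := Nat.cast_nonneg l
    have f3 : 0 ≤ C * D := mul_nonneg hC0 hD0
    have f4 : 0 ≤ Real.log (2 + (P.gs b).rg s) := Real.log_nonneg (by
      have : (0 : ℝ) ≤ (P.gs b).rg s := Nat.cast_nonneg _
      linarith)
    have f5 : 0 ≤ C * D * (l + Ex F.p (fun ω => ((b₀ ω).al : ℝ))) :=
      mul_nonneg f3 (by linarith)
    have f6 : 0 ≤ (m + 1) * Real.log 2 * Ex F.p (fun ω => ((b₀ ω).al : ℝ)) := by positivity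
    have f7 : 0 ≤ (m + 1) * Real.log 2 * Real.log (2 + (P.gs b).rg s) := by positivity
    have f8 : (C * D + (m + 1) * Real.log 2) * (l + Ex F.p (fun ω => ((b₀ ω).al : ℝ))) =
        C * D * (l + Ex F.p (fun ω => ((b₀ ω).al : ℝ))) + (m * l * Real.log 2 + l * Real.log 2) +
        (m + 1) * Real.log 2 * Ex F.p (fun ω => ((b₀ ω).al : ℝ)) := by ring
    have f9 : (C * D + (m + 1) * Real.log 2) * Real.log (2 + (P.gs b).rg s) =
        C * D * Real.log (2 + (P.gs b).rg s) +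
          (m + 1) * Real.log 2 * Real.log (2 + (P.gs b).rg s) := by ring
    rw [f8, f9]
    linarith
  subst hK
  subst hT1
  subst hz
  exact hfin

end Pool.GC
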