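import Pool.Agent.H53.BE.CntT
import Pool.Agent.H94.TB.Time
import Pool.Agent.H16.GEO.Siz

/-!
# (CNT) for the bodies of the class, in any window

`cntW : 1 ≤ m → 1 ≤ E → CntW m E`: the count `cnt'` in the time of the window.
-/

set_option autoImplicit false

namespace Pool.CW

open Finset Real MvPolynomial
open Pool.Agent.H49.Ent Pool.Agent.H32.Dense Pool.STK
open Pool.LAT (Bd Sp)
open Pool.SH (Ln lpos)
open Pool.GEN (pnt)
open Pool.BJ (dM mnr jm JF exists_jm)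
open Pool.KNB (nJ mo cmb ev)
open Pool.CNT (tp tx dP cnt')
open Pool.TB (tc eval_tc pderiv_tc rl wt wt_eq lpos_rl)
open Pool.GC

variable {m E : ℕ}

theorem tp_eq (t : ℝ) (x : Fin m → ℝ) : tp t x = pnt t x := by
  funext o
  cases o <;> rfl

/-- The functions of a body in the time of a window, divided by `κ`. -/
noncomputable def fW (κ : ℝ) (W T : ℕ) (B : Bd (nJ m E)) (i : Fin (nJ m E)) :
    MvPolynomial (Option (Fin m)) ℝ := C κ⁻¹ * tc ((T : ℝ) / 2 ^ W) (1 / 2 ^ W) (FB B i)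

theorem deg_tc (τ ρ : ℝ) (P : MvPolynomial (Option (Fin m)) ℝ) :
    (tc τ ρ P).totalDegree ≤ P.totalDegree := by
  unfold tc
  rw [aeval_eq_bind₁]
  refine Pool.Agent.H50.PW.totalDegree_bind₁_le _ (fun o => ?_) P
  cases o with
  | none =>
    refine (totalDegree_add _ _).trans (max_le ?_ ?_)
    · rw [totalDegree_C]
      exact Nat.zero_le _
    · refine (totalDegree_mul _ _).trans ?_
      rw [totalDegree_C, zero_add, totalDegree_X]
  | some k => exact (totalDegree_X _).le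

theorem deg_fW (κ : ℝ) (W T : ℕ) (B : Bd (nJ m E)) (i : Fin (nJ m E)) :
    (fW κ W T B i).totalDegree ≤ dD m E := by
  unfold fW
  refine (totalDegree_mul _ _).trans ?_
  rw [totalDegree_C, zero_add]
  exact (deg_tc _ _ _).trans (deg_FB B i)

theorem eval_fW (κ : ℝ) (W T : ℕ) (B : Bd (nJ m E)) (i : Fin (nJ m E)) (x : Ln m) (s : ℝ) :
    eval (tp s (lpos (rl W T x) s)) (fW κ W T B i) = κ⁻¹ * B.fn i (phl E x (wt W T s)) := by
  unfold fW
  rw [map_mul, eval_C, tp_eq, eval_tc, lpos_rl, wt_eq, ← ev_FB]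
  rfl

theorem eval_dPw (κ : ℝ) (W T : ℕ) (B : Bd (nJ m E)) (S : Fin m → Fin (nJ m E)) (x : Ln m)
    (s : ℝ) : eval (tp s (lpos (rl W T x) s)) (dP fun i => fW κ W T B (S i)) =
      κ⁻¹ ^ m * mnr (dM (FB B) (pnt (wt W T s) (lpos x (wt W T s)))) S := by
  unfold dP mnr
  rw [RingHom.map_det]
  have h1 : (RingHom.mapMatrix (eval (tp s (lpos (rl W T x) s))))
      (Matrix.of fun i j => pderiv (some j) (fW κ W T B (S i))) =
      κ⁻¹ • (Matrix.of fun i j => (dM (FB B) (pnt (wt W T s) (lpos x (wt W T s)))) (S i) j) := by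
    ext i j
    rw [Matrix.smul_apply, smul_eq_mul]
    show eval (tp s (lpos (rl W T x) s)) (pderiv (some j) (fW κ W T B (S i))) = κ⁻¹ *
      eval (pnt (wt W T s) (lpos x (wt W T s))) (pderiv (some j) (FB B (S i)))
    unfold fW
    rw [pderiv_C_mul, map_mul, eval_C, tp_eq, pderiv_tc, eval_tc, lpos_rl, wt_eq]
  rw [h1, Matrix.det_smul, Fintype.card_fin]

theorem wt_inv (W T : ℕ) (s : ℝ) : wt W T (2 ^ W * s - T) = s := by
  unfold wt
  field_simp
  ring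

theorem log_two_r (r : ℕ) : Real.log (2 * r + 1) ≤ 2 * Real.log (2 + r) := by
  have hr : (0 : ℝ) ≤ r := Nat.cast_nonneg r
  have h1 : (2 * r + 1 : ℝ) ≤ (2 + r) ^ 2 := by nlinarith
  have h2 := Real.log_le_log (by positivity) h1
  rw [Real.log_pow] at h2
  push_cast at h2
  exact h2

/-- **(CNT) for the class.** -/
theorem cntW (hm : 1 ≤ m) (hE : 1 ≤ E) : CntW m E := by
  classical
  intro C₁
  obtain ⟨κ, hκ⟩ : ∃ κ : ℝ, κ = max C₁ 1 := ⟨_, rfl⟩
  have hκ1 : 1 ≤ κ := by rw [hκ]; exact le_max_right _ _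
  have hCκ : C₁ ≤ κ := by rw [hκ]; exact le_max_left _ _
  have hκ0 : 0 < κ := by linarith
  obtain ⟨C, hC, hcnt⟩ := cnt' m (nJ m E) (nJ m E) (dD m E) hm κ hκ0.le
  have hlog2 : 0 < Real.log 2 := Real.log_pos (by norm_num)
  have hlκ : 0 ≤ Real.log κ := Real.log_nonneg hκ1
  have hm0 : (0 : ℝ) ≤ m := Nat.cast_nonneg m
  have hnJ : 0 < nJ m E := by
    have hx : Nonempty (Pool.KNB.Jx m E) :=
      ⟨⟨fun _ => ⟨1, by omega⟩, ⟨0, hm⟩, by
        intro h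
        exact absurd (congrArg Fin.val h) (by simp)⟩⟩
    exact Fintype.card_pos
  obtain ⟨C₂, hC₂⟩ : ∃ C₂ : ℝ, C₂ = C + m * Real.log κ + 2 * Real.log 2 := ⟨_, rfl⟩
  have hC₂0 : 0 ≤ C₂ := by rw [hC₂]; positivity
  refine ⟨C₂ / Real.log 2 + 2, by positivity, ?_⟩
  intro Ω γ _ p hp J k w W r x t n TW w' t' Bh B z sz V hdet hbas hsz hcell
  obtain ⟨S₀, hS₀⟩ : ∃ S₀ : Fin m → Fin (nJ m E), S₀ = fun _ => ⟨0, hnJ⟩ := ⟨_, rfl⟩
  obtain ⟨Sf, hSf⟩ : ∃ Sf : Ω → Fin m → Fin (nJ m E),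
      Sf = fun ω => (Sm (Bh ω) w (t ω) (x ω)).getD S₀ := ⟨_, rfl⟩
  have hSJ0 : ∀ ω, 0 < p ω → 0 < SJ (Bh ω) w (t ω) (x ω) := fun ω hω =>
    lt_of_lt_of_le (by positivity) (hsz ω hω).2.1
  have hSm : ∀ ω, Sm (Bh ω) w (t ω) (x ω) = some (Sf ω) ∧
      SS (Bh ω) w (t ω) (Sf ω) (x ω) = SJ (Bh ω) w (t ω) (x ω) := by
    intro ω
    obtain ⟨S, h1, h2⟩ := exists_Sm (Bh ω) w (t ω) (x ω) hnJ
    have h3 : Sf ω = S := by
      rw [hSf]
      simp only [h1, Option.getD_some]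
    rw [h3]
    exact ⟨h1, h2⟩
  -- the dyadic size
  have hex : ∀ ω, ∃ e : ℤ, 0 < p ω → (2 : ℝ) ^ e ≤ SJ (Bh ω) w (t ω) (x ω) ∧
      SJ (Bh ω) w (t ω) (x ω) < 2 ^ (e + 1) := by
    intro ω
    by_cases hω : 0 < p ω
    · obtain ⟨e, he⟩ := exists_mem_Ico_zpow (hSJ0 ω hω) (one_lt_two (α := ℝ))
      exact ⟨e, fun _ => he⟩
    · exact ⟨0, fun h => absurd h hω⟩
  choose ee hee using hex
  obtain ⟨τ, hτ⟩ : ∃ τ : Ω → ℝ, τ = fun ω =>
      2 ^ W * (((t ω : ℝ) + (n ω : ℝ) / 2 ^ k) / 2 ^ w) - TW ω := ⟨_, rfl⟩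
  have hwτ : ∀ ω, wt W (TW ω) (τ ω) = ((t ω : ℝ) + (n ω : ℝ) / 2 ^ k) / 2 ^ w := by
    intro ω
    rw [hτ]
    exact wt_inv _ _ _
  have hWp : (0 : ℝ) < 2 ^ W := by positivity
  have hτ01 : ∀ ω, 0 < p ω → 0 ≤ τ ω ∧ τ ω ≤ 1 := by
    intro ω hω
    obtain ⟨-, -, -, -, -, -, h1⟩ := hbas ω hω
    obtain ⟨h2, h3⟩ := h1
    rw [div_le_iff₀ hWp] at h2
    rw [le_div_iff₀ hWp] at h3
    rw [hτ]
    constructor
    · simp only
      linarith
    · simp only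
      linarith
  -- the time of the label
  have hwin : ∀ ω, 0 < p ω → ∀ s, 2 ^ W * ((t' ω : ℝ) / 2 ^ w' ω) - TW ω ≤ s →
      s ≤ 2 ^ W * ((t' ω : ℝ) / 2 ^ w' ω) - TW ω + 2 ^ W / 2 ^ w' ω →
      wt W (TW ω) s ∈ win (w' ω) (t' ω) := by
    intro ω _ s h1 h2
    unfold wt
    constructor
    · rw [le_div_iff₀ hWp]
      linarith
    · rw [div_le_iff₀ hWp, add_div]
      have : (1 : ℝ) / 2 ^ w' ω * 2 ^ W = 2 ^ W / 2 ^ w' ω := by ring
      linarith
  obtain ⟨V', hV'⟩ : ∃ V' : Ω → γ × (ℕ × ℕ × ℕ × Bd (nJ m E) × Bd (nJ m E) × ℤ × ℤ × ℕ),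
      V' = fun ω => (V ω, (TW ω, w' ω, t' ω, Bh ω, B ω, z ω, sz ω, t ω)) := ⟨_, rfl⟩
  have hVV : ∀ ω ω', 0 < p ω → 0 < p ω' → V' ω = V' ω' → V ω = V ω' := by
    intro ω ω' _ _ h
    rw [hV'] at h
    exact (Prod.ext_iff.1 h).1
  have hmain := hcnt Ω (γ × (ℕ × ℕ × ℕ × Bd (nJ m E) × Bd (nJ m E) × ℤ × ℤ × ℕ)) ℕ p hp k
    (fun ω => rl W (TW ω) (x ω)) n τ V'
    (fun q => fW 1 W q.2.1 q.2.2.2.2.1) (fun q => fW κ W q.2.1 q.2.2.2.2.2.1)
    (fun q => 2 ^ W * ((q.2.2.2.1 : ℝ) / 2 ^ q.2.2.1) - q.2.1)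
    (fun q => 2 ^ W / 2 ^ q.2.2.1) (fun q => κ ^ m * 2 ^ (1 - q.2.2.2.2.2.2.2.1)) Sf
    (fun ω => (2 : ℝ) ^ (ee ω + 1))
    (fun q i => deg_fW _ _ _ _ _) (fun q i => deg_fW _ _ _ _ _) (by
      intro ω ω' hω hω' hV hn
      obtain ⟨h1, h2, -⟩ := hdet ω ω' hω hω' (hVV ω ω' hω hω' hV)
      rw [hτ]
      simp only [h1, h2, hn]) hτ01 (by
      intro ω hω
      obtain ⟨-, -, -, h4, h5, -, -⟩ := hbas ω hω
      rw [hV']
      simp only
      have hsub := win_subset' h4 h5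
      have hw' : (0 : ℝ) < 2 ^ w' ω := by positivity
      have e1 : (t' ω : ℝ) / 2 ^ w' ω ∈ win W (TW ω) := hsub
        ⟨le_rfl, div_le_div_of_nonneg_right (by linarith) hw'.le⟩
      have e2 : ((t' ω : ℝ) + 1) / 2 ^ w' ω ∈ win W (TW ω) := hsub
        ⟨div_le_div_of_nonneg_right (by linarith) hw'.le, le_rfl⟩
      have e3 := e1.1
      have e4 := e2.2
      rw [div_le_iff₀ hWp] at e3
      rw [le_div_iff₀ hWp] at e4
      refine ⟨by linarith, by positivity, ?_, by positivity⟩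
      have e5 : ((t' ω : ℝ) + 1) / 2 ^ w' ω * 2 ^ W =
          2 ^ W * ((t' ω : ℝ) / 2 ^ w' ω) + 2 ^ W / 2 ^ w' ω := by ring
      linarith) (by
      intro ω ω' hω hω' hV hn i
      obtain ⟨-, -, -, -, -, -, h1⟩ := hbas ω hω
      obtain ⟨-, h2, -⟩ := hdet ω ω' hω hω' (hVV ω ω' hω hω' hV)
      have h3 := (hcell ω ω' hω hω' (hVV ω ω' hω hω' hV)).1 _ h1 i
      rw [hV']
      simp only
      rw [eval_fW, h2, eval_fW, ← h2, inv_one, one_mul, one_mul, hwτ]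
      exact h3) (by
      intro ω ω' hω hω' hV s hs1 hs2 i
      have hV2 := hV
      rw [hV'] at hs1 hs2
      simp only at hs1 hs2
      obtain ⟨-, h2, -⟩ := hdet ω ω' hω hω' (hVV ω ω' hω hω' hV)
      have h3 := (hcell ω ω' hω hω' (hVV ω ω' hω hω' hV)).2 _ (hwin ω hω s hs1 hs2) i
      rw [hV']
      simp only
      rw [eval_fW, h2, eval_fW, ← h2, ← mul_sub, abs_mul, abs_of_pos (inv_pos.2 hκ0),
        inv_mul_le_iff₀ hκ0, mul_one]
      exact h3.trans hCκ) (by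
      intro ω hω
      obtain ⟨h1, -, -, -⟩ := hsz ω hω
      obtain ⟨s, hs, hSJs⟩ := exists_SJ_time (B ω) (w' ω) (t' ω) (x ω)
      have h2 : (2 : ℝ) ^ sz ω ≤ JF (FB (B ω)) (pnt s (lpos (x ω) s)) := by
        rw [← hSJs]
        exact h1
      have h3 : 0 < jm (dM (FB (B ω)) (pnt s (lpos (x ω) s))) :=
        lt_of_lt_of_le (by positivity) h2
      obtain ⟨S', hS'⟩ := exists_jm h3
      rw [hV']
      simp only
      have hs1 := hs.1
      have hs2 := hs.2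
      have hw' : (0 : ℝ) < 2 ^ w' ω := by positivity
      refine ⟨2 ^ W * s - TW ω, ?_, ?_, S', ?_⟩
      · have := mul_le_mul_of_nonneg_left hs1 hWp.le
        linarith
      · have := mul_le_mul_of_nonneg_left hs2 hWp.le
        have e5 : 2 ^ W * (((t' ω : ℝ) + 1) / 2 ^ w' ω) =
          2 ^ W * ((t' ω : ℝ) / 2 ^ w' ω) + 2 ^ W / 2 ^ w' ω := by ring
        linarith
      · rw [eval_dPw, wt_inv, abs_mul, abs_of_pos (by positivity), hS']
        have e6 : 1 / (κ ^ m * (2 : ℝ) ^ (1 - sz ω)) = κ⁻¹ ^ m * 2 ^ (sz ω - 1) := by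
          rw [one_div, mul_inv, inv_pow, ← zpow_neg]
          congr 2
          ring
        rw [e6]
        refine mul_le_mul_of_nonneg_left (le_trans ?_ h2) (by positivity)
        exact zpow_le_zpow_right₀ (by norm_num) (by omega)) (by
      intro ω hω
      obtain ⟨h0, h1⟩ := hee ω hω
      refine ⟨by positivity, ?_⟩
      obtain ⟨hb1, hn1, ht1, -, -, -, -⟩ := hbas ω hω
      rw [hV']
      simp only
      rw [eval_dPw, inv_one, one_pow, one_mul, hwτ]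
      have h2 : ((t ω : ℝ) + (n ω : ℝ) / 2 ^ k) / 2 ^ w ∈ win w (t ω) := by
        have e1 : (n ω : ℝ) / 2 ^ k ≤ 1 := by
          rw [div_le_one (by positivity)]
          exact_mod_cast hn1.le
        have e2 : (0 : ℝ) ≤ (n ω : ℝ) / 2 ^ k := by positivity
        exact ⟨div_le_div_of_nonneg_right (by linarith) (by positivity),
          div_le_div_of_nonneg_right (by linarith) (by positivity)⟩
      exact (mnr_le_SJ (Bh ω) (x ω) (Sf ω) h2).trans h1.le) (by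
      intro ω hω
      obtain ⟨-, -, -, h1⟩ := hsz ω hω
      obtain ⟨h2, h3⟩ := hee ω hω
      obtain ⟨-, -, -, h4, -, -, -⟩ := hbas ω hω
      rw [hV']
      simp only
      obtain ⟨s, hs⟩ : ∃ s, s = SJ (Bh ω) w (t ω) (x ω) := ⟨_, rfl⟩
      have hs0 := hSJ0 ω hω
      rw [← hs] at h1 h3 hs0
      -- the power of the window
      have e1 : ((2 : ℝ) ^ W / 2 ^ w' ω) ^ m * 2 ^ (m * (w' ω - W)) = 1 := by
        obtain ⟨d, hd⟩ : ∃ d, w' ω = W + d := ⟨w' ω - W, by omega⟩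
        rw [hd, Nat.add_sub_cancel_left, pow_add, div_pow, mul_comm m d, pow_mul]
        have : ((2 : ℝ) ^ W * 2 ^ d) ^ m = (2 ^ W) ^ m * (2 ^ d) ^ m := mul_pow _ _ _
        rw [this]
        field_simp
      have hp1 : (0 : ℝ) < 2 ^ (m * (w' ω - W)) := by positivity
      have hκm : (1 : ℝ) ≤ κ ^ m := one_le_pow₀ hκ1
      have h5 : (2 : ℝ) ^ sz ω ≤ κ * 2 ^ k * 2 ^ (m * (w' ω - W)) * s := by
        refine h1.trans ?_
        refine mul_le_mul_of_nonneg_right ?_ hs0.le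
        refine mul_le_mul_of_nonneg_right ?_ hp1.le
        exact mul_le_mul_of_nonneg_right hCκ (by positivity)
      have e2 : (2 : ℝ) ^ (1 - sz ω) * 2 ^ sz ω = 2 := by
        rw [← zpow_add₀ (by norm_num)]
        have : (1 - sz ω + sz ω) = 1 := by ring
        rw [this, zpow_one]
      have hq : (0 : ℝ) < 2 ^ (1 - sz ω) := by positivity
      have hh : (0 : ℝ) < ((2 : ℝ) ^ W / 2 ^ w' ω) ^ m := by positivity
      -- multiply
      have h6 : 2 ≤ 2 ^ (1 - sz ω) * (κ * 2 ^ k * 2 ^ (m * (w' ω - W)) * s) := by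
        have h60 := mul_le_mul_of_nonneg_left h5 hq.le
        rwa [e2] at h60
      have h7 : ((2 : ℝ) ^ W / 2 ^ w' ω) ^ m * 2 ≤
          2 ^ (1 - sz ω) * (κ * 2 ^ k * s) := by
        have := mul_le_mul_of_nonneg_left h6 hh.le
        calc ((2 : ℝ) ^ W / 2 ^ w' ω) ^ m * 2 ≤ ((2 : ℝ) ^ W / 2 ^ w' ω) ^ m *
            (2 ^ (1 - sz ω) * (κ * 2 ^ k * 2 ^ (m * (w' ω - W)) * s)) := this
          _ = (((2 : ℝ) ^ W / 2 ^ w' ω) ^ m * 2 ^ (m * (w' ω - W))) *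
              (2 ^ (1 - sz ω) * (κ * 2 ^ k * s)) := by ring
          _ = _ := by rw [e1, one_mul]
      have h8 : 2 ^ (1 - sz ω) * (κ * 2 ^ k * s) ≤
          κ * (2 ^ k * (2 : ℝ) ^ (ee ω + 1) * (κ ^ m * 2 ^ (1 - sz ω))) := by
        calc 2 ^ (1 - sz ω) * (κ * 2 ^ k * s) = κ * (2 ^ k * s * (1 * 2 ^ (1 - sz ω))) := by ring
          _ ≤ κ * (2 ^ k * (2 : ℝ) ^ (ee ω + 1) * (κ ^ m * 2 ^ (1 - sz ω))) := by
            refine mul_le_mul_of_nonneg_left ?_ hκ0.le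
            refine mul_le_mul (mul_le_mul_of_nonneg_left h3.le (by positivity))
              (mul_le_mul_of_nonneg_right hκm hq.le) (by positivity) (by positivity)
      linarith)
  -- the size
  have e1 : CH p (fun ω => (2 : ℝ) ^ (ee ω + 1)) V' ≤ 2 * Real.log (2 + r) := by
    have h1 := CH_le_card hp.nonneg hp.sum_one (fun ω => (2 : ℝ) ^ (ee ω + 1)) V'
      (fun q => (Finset.Icc (q.2.2.2.2.2.2.1 - r) (q.2.2.2.2.2.2.1 + r)).image
        fun i : ℤ => (2 : ℝ) ^ (i + 1)) (by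
        intro ω hω
        obtain ⟨h2, h3⟩ := hee ω hω
        obtain ⟨-, h4, h5, -⟩ := hsz ω hω
        refine Finset.mem_image_of_mem _ ?_
        rw [hV', Finset.mem_Icc]
        simp only
        have h6 : (2 : ℝ) ^ (z ω - r) < 2 ^ (ee ω + 1) := h4.trans_lt h3
        have h7 : (2 : ℝ) ^ ee ω ≤ 2 ^ (z ω + r) := h2.trans h5
        rw [zpow_lt_zpow_iff_right₀ (by norm_num)] at h6
        rw [zpow_le_zpow_iff_right₀ (by norm_num)] at h7
        omega)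
    refine h1.trans ?_
    have h2 : ∀ q : ℤ, Real.log (((Finset.Icc (q - r) (q + r)).image
        fun i : ℤ => (2 : ℝ) ^ (i + 1)).card) ≤ 2 * Real.log (2 + r) := by
      intro q
      refine le_trans ?_ (log_two_r r)
      have h3 : ((Finset.Icc (q - r) (q + r)).image fun i : ℤ => (2 : ℝ) ^ (i + 1)).card ≤
          2 * r + 1 := by
        refine Finset.card_image_le.trans ?_
        rw [Int.card_Icc]
        omega
      have h4 : 0 < ((Finset.Icc (q - r) (q + r)).image fun i : ℤ => (2 : ℝ) ^ (i + 1)).card := by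
        refine Finset.card_pos.2 (Finset.Nonempty.image ⟨q, ?_⟩ _)
        rw [Finset.mem_Icc]
        constructor <;> linarith [(Nat.cast_nonneg r : (0 : ℤ) ≤ r)]
      exact Real.log_le_log (by exact_mod_cast h4) (by exact_mod_cast h3)
    refine (Ex_mono hp.nonneg (g := fun _ => 2 * Real.log (2 + r)) fun ω _ => h2 _).trans ?_
    rw [Ex_const hp.sum_one]
  -- the number
  have e2 : CH p n V' ≤ CH p n V := CH_mono_cond hp.nonneg fun ω ω' h h' hh => hVV ω ω' h h' hh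
  -- the points
  have e3 : CH p (fun ω => pYf k w (Bh ω) (x ω) (t ω) (n ω)) V ≤
      CH p (fun ω => (Sf ω, n ω, fun i : Fin m => ⌊(2 : ℝ) ^ k *
          eval (tp (τ ω) (lpos (rl W (TW ω) (x ω)) (τ ω))) (fW 1 W (V' ω).2.1
            (V' ω).2.2.2.2.1 (Sf ω i))⌋)) V' := by
    refine (CH_mono_cond hp.nonneg (W' := V) (W := V') ?_).trans (CH_mono_left hp.nonneg ?_)
    · intro ω ω' h h' hh
      obtain ⟨h1, h2, h3, h4, h5, h6, h7, h8⟩ := hdet ω ω' h h' hh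
      rw [hV']
      simp only [hh, h1, h2, h3, h4, h5, h6, h7, h8]
    · intro ω ω' h h' hh
      have hV := (Prod.ext_iff.1 hh).2
      have hX := (Prod.ext_iff.1 hh).1
      have g1 : Sf ω = Sf ω' := (Prod.ext_iff.1 hX).1
      have g2 : n ω = n ω' := (Prod.ext_iff.1 (Prod.ext_iff.1 hX).2).1
      obtain ⟨h1, h2, h3, h4, h5, -⟩ := hdet ω ω' h h' (hVV ω ω' h h' hV)
      have key : ∀ ω, (fun i : Fin m => ⌊(2 : ℝ) ^ k *
          eval (tp (τ ω) (lpos (rl W (TW ω) (x ω)) (τ ω))) (fW 1 W (V' ω).2.1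
            (V' ω).2.2.2.2.1 (Sf ω i))⌋) = ptc (Bh ω) (Sf ω) k w (t ω) (x ω) (n ω) := by
        intro ω
        funext i
        have e : (V' ω).2.1 = TW ω ∧ (V' ω).2.2.2.2.1 = Bh ω := by
          rw [hV']
          exact ⟨rfl, rfl⟩
        rw [e.1, e.2, eval_fW, inv_one, one_mul, hwτ]
        rfl
      have g3 : ptc (Bh ω) (Sf ω) k w (t ω) (x ω) (n ω) =
          ptc (Bh ω') (Sf ω') k w (t ω') (x ω') (n ω') :=
        (key ω).symm.trans ((Prod.ext_iff.1 (Prod.ext_iff.1 hX).2).2.trans (key ω'))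
      show pYf k w (Bh ω) (x ω) (t ω) (n ω) = pYf k w (Bh ω') (x ω') (t ω') (n ω')
      unfold pYf
      rw [(hSm ω).1, (hSm ω').1, Option.map_some, Option.map_some, g3, g1, g2, h1]
  -- the mean
  have e4 : Ex p (fun ω => ((k * m : ℕ) : ℝ) * Real.log 2 + Real.log ((2 : ℝ) ^ (ee ω + 1)) +
      Real.log (κ ^ m * 2 ^ (1 - (V' ω).2.2.2.2.2.2.2.1)) -
        m * Real.log (2 ^ W / 2 ^ (V' ω).2.2.1)) ≤
      Ex p (fun ω => pU J k w (Bh ω) (x ω) (t ω) - k * Real.log 2 +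
        ((m : ℝ) * J - sz ω + m * ((w' ω : ℝ) - W)) * Real.log 2) +
        (m * Real.log κ + 2 * Real.log 2) := by
    rw [← Ex_const hp.sum_one (m * Real.log κ + 2 * Real.log 2), ← Ex_add]
    refine Ex_mono hp.nonneg fun ω hω => ?_
    obtain ⟨h2, h3⟩ := hee ω hω
    have e5 : (V' ω).2.2.2.2.2.2.2.1 = sz ω ∧ (V' ω).2.2.1 = w' ω := by
      rw [hV']
      exact ⟨rfl, rfl⟩
    rw [e5.1, e5.2]
    have h4 := Real.log_le_log (by positivity) h2
    rw [Real.log_zpow] at h4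
    rw [Real.log_zpow, Real.log_mul (by positivity) (by positivity), Real.log_pow, Real.log_zpow,
      Real.log_div (by positivity) (by positivity), Real.log_pow, Real.log_pow]
    unfold pU
    push_cast
    linarith
  have e5 : C₂ ≤ C₂ / Real.log 2 * Real.log (2 + r) := by
    have h1 : Real.log 2 ≤ Real.log (2 + r) :=
      Real.log_le_log (by norm_num) (by linarith [(Nat.cast_nonneg r : (0 : ℝ) ≤ r)])
    calc C₂ = C₂ / Real.log 2 * Real.log 2 := by field_simp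
      _ ≤ _ := mul_le_mul_of_nonneg_left h1 (by positivity)
  have hmain' : CH p (fun ω => (Sf ω, n ω, fun i : Fin m => ⌊(2 : ℝ) ^ k *
          eval (tp (τ ω) (lpos (rl W (TW ω) (x ω)) (τ ω))) (fW 1 W (V' ω).2.1
            (V' ω).2.2.2.2.1 (Sf ω i))⌋)) V' ≤
      CH p n V' + CH p (fun ω => (2 : ℝ) ^ (ee ω + 1)) V' +
      Ex p (fun ω => ((k * m : ℕ) : ℝ) * Real.log 2 + Real.log ((2 : ℝ) ^ (ee ω + 1)) +
      Real.log (κ ^ m * 2 ^ (1 - (V' ω).2.2.2.2.2.2.2.1)) -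
        m * Real.log (2 ^ W / 2 ^ (V' ω).2.2.1)) + C := hmain
  rw [add_mul]
  linarith

end Pool.CW
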