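import Pool.Agent.H96.GEO.Geo3

/-!
# The sizes of the body for the points

The body for the points of a pair of labels is the multiple `scl c₄` of the coarse body. Its size in
the window of the second label, against the size of the coarse cell and against the sizes of the two
labels.
-/

set_option autoImplicit false

namespace Pool.GC

open Finset Real
open Pool.LAT
open Pool.KNH (LA LB Ln GS)
open Pool.KNB (nJ)

variable {m E : ℕ} {P : Par m E} {b : BP} {Cg g : ℕ}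

theorem scl_le {N : ℕ} (c : ℕ) (B : Bd N) : (scl c B).le (2 ^ c) B := by
  intro u hu
  rw [← Bd.mul_one, scl_mul, one_mul, zpow_natCast] at hu
  exact hu

theorem le_scl {N : ℕ} (c : ℕ) (B : Bd N) : B.le 1 (scl c B) := by
  intro u hu
  rw [scl_mul, one_mul, zpow_natCast]
  rw [← Bd.mul_one] at hu
  exact Bd.mul_mono (one_le_pow₀ (by norm_num)) _ hu

/-- The size of a multiple. -/
theorem SJ_le_scl (hC : Cur m E Cg) (B : Bd (nJ m E)) (x : Ln m) (w t c : ℕ) :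
    SJ B w t x ≤ 2 ^ (Cg + m * c) * SJ (scl c B) w t x :=
  hC.sj_le (scl c B) B x w t c (scl_le c B)

theorem SJ_scl_le (hC : Cur m E Cg) (B : Bd (nJ m E)) (x : Ln m) (w t c : ℕ) :
    SJ (scl c B) w t x ≤ 2 ^ Cg * SJ B w t x := by
  have h := hC.sj_le B (scl c B) x w t 0 (by rw [pow_zero]; exact le_scl c B)
  rwa [mul_zero, add_zero] at h

section pair

variable {J w l : ℕ} {c : Cc m E} {k a : ℕ} {x : Ln m} {t t₀ t₁ : ℕ} {v v₀ v₁ : Vl m E}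

/-- The coarse body is inside a multiple of the first body. -/
theorem crB_le_v₀ (hl : 1 ≤ l) :
    (crB P b a c.c.B v₀.c.B (shv b l v₀ v₁)).le
      (2 ^ (qq l v₁.al * (nJ m E * (cN (nJ m E) + 1) + 2 + b.A₀ +
        nJ m E * ∑ j, (shv b l v₀ v₁).gu j))) v₀.c.B := by
  rcases Nat.eq_zero_or_pos (nJ m E) with h0 | h0
  · intro u _ j
    exact absurd j.2 (by omega)
  obtain ⟨G, hG⟩ : ∃ G, G = ∑ j, (shv b l v₀ v₁).gu j := ⟨_, rfl⟩
  have hq := qq_pos hl v₁.al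
  have h1 := crB_le₁ P b a c.c.B v₀.c.B (shv b l v₀ v₁)
  have h3 : ((upB b.A₀ (qq l v₁.al) v₀.c.B).crs
      (grw fun j => qq l v₁.al * (shv b l v₀ v₁).gu j)).le
      (2 ^ (nJ m E * (cN (nJ m E) + ∑ j, qq l v₁.al * (shv b l v₀ v₁).gu j)))
      (upB b.A₀ (qq l v₁.al) v₀.c.B) := Bd.crs_le_mul _ fun j => grw_le _ j
  have h4 := (h1.trans h3 (by positivity)).trans (up_le (A₀ := b.A₀) hq v₀.c.B) (by positivity)
  refine h4.mono ?_
  have e1 : (2 : ℝ) *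
      2 ^ (nJ m E * (cN (nJ m E) + ∑ j, qq l v₁.al * (shv b l v₀ v₁).gu j)) *
      2 ^ (qq l v₁.al * (1 + b.A₀)) = 2 ^ (1 + (nJ m E * (cN (nJ m E) +
        ∑ j, qq l v₁.al * (shv b l v₀ v₁).gu j)) + qq l v₁.al * (1 + b.A₀)) := by
    rw [pow_add, pow_add, pow_one]
  rw [e1]
  refine pow_le_pow_right₀ (by norm_num) ?_
  rw [← mul_sum, ← hG]
  obtain ⟨q, hqd⟩ : ∃ q, q = qq l v₁.al := ⟨_, rfl⟩
  rw [← hqd] at hq ⊢
  obtain ⟨N, hN⟩ : ∃ N, N = nJ m E := ⟨_, rfl⟩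
  rw [← hN]
  have f1 : (1 + N * cN N) * 1 ≤ (1 + N * cN N) * q := Nat.mul_le_mul_left _ hq
  have f2 : 0 ≤ N * q := Nat.zero_le _
  nlinarith

/-- The room in the range. -/
theorem rg_room (hP : Cst P b Cg g) (l : ℕ) (hl : 1 ≤ l) (v₀ v₁ : Vl m E) {y : ℕ}
    (hy : y ≤ 15 * Cg * qq l v₁.al + m * b.c₄) :
    y + m * (qq l v₁.al * (nJ m E * (cN (nJ m E) + 1) + 2 + b.A₀ +
        nJ m E * ∑ j, (shv b l v₀ v₁).gu j)) + b.c₁ ≤ rgv b (shv b l v₀ v₁) := by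
  have e1 := hP.A₁'
  have e2 := hP.A₂'
  show _ ≤ qq l v₁.al * (b.A₁ + b.A₂ * ∑ j, (shv b l v₀ v₁).gu j)
  obtain ⟨G, hG⟩ : ∃ G, G = ∑ j, (shv b l v₀ v₁).gu j := ⟨_, rfl⟩
  obtain ⟨q, hqd⟩ : ∃ q, q = qq l v₁.al := ⟨_, rfl⟩
  have hq : 1 ≤ q := by rw [hqd]; exact qq_pos hl v₁.al
  rw [← hG, ← hqd]
  rw [← hqd] at hy
  obtain ⟨N, hN⟩ : ∃ N, N = nJ m E := ⟨_, rfl⟩
  rw [← hN] at e1 e2 ⊢
  obtain ⟨K, hK⟩ : ∃ K, K = cN N := ⟨_, rfl⟩
  rw [← hK] at e1 ⊢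
  obtain ⟨A, hA⟩ : ∃ A, A = b.A₀ := ⟨_, rfl⟩
  rw [← hA] at e1 ⊢
  -- the constant part
  have f1 : 15 * Cg + m * b.c₄ + m * (N * (K + 1) + 2 + A) + b.c₁ ≤ b.A₁ := by
    have g1 : m * (N * (K + 1) + 2 + A) ≤ (m + 1) * (N + 1) * (2 * K + 2 * A + 10) := by
      have g2 : N * (K + 1) + 2 + A ≤ (N + 1) * (2 * K + 2 * A + 10) := by nlinarith
      calc m * (N * (K + 1) + 2 + A) ≤ (m + 1) * ((N + 1) * (2 * K + 2 * A + 10)) :=
            Nat.mul_le_mul (by omega) g2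
        _ = _ := by ring
    omega
  have f2 : m * N * G ≤ b.A₂ * G := Nat.mul_le_mul_right _ (by omega)
  have f3 : (m * b.c₄ + b.c₁) * 1 ≤ (m * b.c₄ + b.c₁) * q := Nat.mul_le_mul_left _ hq
  calc y + m * (q * (N * (K + 1) + 2 + A + N * G)) + b.c₁ ≤
      (15 * Cg * q + m * b.c₄) + m * (q * (N * (K + 1) + 2 + A + N * G)) + b.c₁ := by omega
    _ = 15 * Cg * q + (m * b.c₄ + b.c₁) * 1 + q * (m * (N * (K + 1) + 2 + A)) +
        q * (m * N * G) := by ring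
    _ ≤ 15 * Cg * q + (m * b.c₄ + b.c₁) * q + q * (m * (N * (K + 1) + 2 + A)) +
        q * (b.A₂ * G) := by
        have := Nat.mul_le_mul_left q f2
        omega
    _ = q * (15 * Cg + m * b.c₄ + m * (N * (K + 1) + 2 + A) + b.c₁) + q * (b.A₂ * G) := by ring
    _ ≤ q * b.A₁ + q * (b.A₂ * G) := by
        have := Nat.mul_le_mul_left q f1
        omega
    _ = _ := by ring

/-- **The size of the second label is dominated.** -/
theorem Pr.dom₁ (hC : Cur m E Cg) (hP : Cst P b Cg g) (h : Pr P J w l c k a x t₀ t₁ v₀ v₁) :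
    (2 : ℝ) ^ v₁.sz ≤ 2 ^ (rgv b (shv b l v₀ v₁) - b.c₁) *
      SJ (scl b.c₄ (crB P b a c.c.B v₀.c.B (shv b l v₀ v₁))) (w + l) t₁ x := by
  obtain ⟨D, hD⟩ : ∃ D, D = crB P b a c.c.B v₀.c.B (shv b l v₀ v₁) := ⟨_, rfl⟩
  obtain ⟨n, hn⟩ : ∃ n, n = qq l v₁.al * (nJ m E * (cN (nJ m E) + 1) + 2 + b.A₀ +
        nJ m E * ∑ j, (shv b l v₀ v₁).gu j) := ⟨_, rfl⟩
  have h1 : (2 : ℝ) ^ v₁.sz ≤ SJ v₁.c.B (w + l) t₁ x :=
    h.ok₁.sz.trans (hC.sj_mono _ _ _ _ _ _ (sw_div h.ok₁.sb))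
  have h2 := h.cr_le (b := b)
  rw [← hn, ← hD] at h2
  have h3 := hC.sj_le D v₁.c.B x (w + l) t₁ n h2
  have h4 := SJ_le_scl hC D x (w + l) t₁ b.c₄
  rw [← hD]
  have hS : 0 < SJ (scl b.c₄ D) (w + l) t₁ x := by
    have p0 : (0 : ℝ) < 2 ^ v₁.sz := by positivity
    have p1 := h1.trans (h3.trans (mul_le_mul_of_nonneg_left h4 (by positivity)))
    by_contra hcon
    push Not at hcon
    have p2 : (2 : ℝ) ^ (Cg + m * n) * (2 ^ (Cg + m * b.c₄) * SJ (scl b.c₄ D) (w + l) t₁ x) ≤ 0 :=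
      mul_nonpos_of_nonneg_of_nonpos (by positivity)
        (mul_nonpos_of_nonneg_of_nonpos (by positivity) hcon)
    linarith
  calc (2 : ℝ) ^ v₁.sz ≤ 2 ^ (Cg + m * n) * (2 ^ (Cg + m * b.c₄) *
        SJ (scl b.c₄ D) (w + l) t₁ x) :=
        h1.trans (h3.trans (mul_le_mul_of_nonneg_left h4 (by positivity)))
    _ = 2 ^ (2 * Cg + m * b.c₄ + m * n) * SJ (scl b.c₄ D) (w + l) t₁ x := by
        rw [← mul_assoc, ← pow_add]
        congr 2
        ring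
    _ ≤ 2 ^ (rgv b (shv b l v₀ v₁) - b.c₁) * SJ (scl b.c₄ D) (w + l) t₁ x := by
        refine mul_le_mul_of_nonneg_right (pow_le_pow_right₀ (by norm_num) ?_) hS.le
        have hq := qq_pos h.l1 v₁.al
        have h5 := rg_room (y := 2 * Cg + m * b.c₄) hP l h.l1 v₀ v₁ (by
          have : 2 * Cg * 1 ≤ 15 * Cg * qq l v₁.al := Nat.mul_le_mul (by omega) hq
          omega)
        rw [← hn] at h5
        omega

/-- **The size of the first label is dominated.** -/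
theorem Pr.dom₀ (hC : Cur m E Cg) (hP : Cst P b Cg g) (h : Pr P J w l c k a x t₀ t₁ v₀ v₁) :
    (2 : ℝ) ^ v₀.sz ≤ 2 ^ (rgv b (shv b l v₀ v₁) - b.c₁) *
      SJ (scl b.c₄ (crB P b a c.c.B v₀.c.B (shv b l v₀ v₁))) (w + l) t₁ x := by
  obtain ⟨D, hD⟩ : ∃ D, D = crB P b a c.c.B v₀.c.B (shv b l v₀ v₁) := ⟨_, rfl⟩
  obtain ⟨n, hn⟩ : ∃ n, n = qq l v₁.al * (nJ m E * (cN (nJ m E) + 1) + 2 + b.A₀ +
        nJ m E * ∑ j, (shv b l v₀ v₁).gu j) := ⟨_, rfl⟩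
  have h1 := h.ok₀.le_SJ hC
  have h2 := crB_le_v₀ (P := P) (b := b) (c := c) (a := a) (v₀ := v₀) (v₁ := v₁) h.l1
  rw [← hn, ← hD] at h2
  have h3 := hC.sj_le D v₀.c.B x w (t₀ / 2 ^ l) n h2
  have h5 := hC.sj_grow D x w l (t₀ / 2 ^ l) t₁ h.tt.symm
  have h4 := SJ_le_scl hC D x (w + l) t₁ b.c₄
  rw [← hD]
  have key : (2 : ℝ) ^ v₀.sz ≤ 2 ^ (Cg + m * n) * (2 ^ (Cg + Cg * l) * (2 ^ (Cg + m * b.c₄) *
      SJ (scl b.c₄ D) (w + l) t₁ x)) :=
    h1.trans (h3.trans (mul_le_mul_of_nonneg_left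
      (h5.trans (mul_le_mul_of_nonneg_left h4 (by positivity))) (by positivity)))
  have hS : 0 < SJ (scl b.c₄ D) (w + l) t₁ x := by
    have p0 : (0 : ℝ) < 2 ^ v₀.sz := by positivity
    by_contra hcon
    push Not at hcon
    have p2 : (2 : ℝ) ^ (Cg + m * n) * (2 ^ (Cg + Cg * l) * (2 ^ (Cg + m * b.c₄) *
        SJ (scl b.c₄ D) (w + l) t₁ x)) ≤ 0 :=
      mul_nonpos_of_nonneg_of_nonpos (by positivity)
        (mul_nonpos_of_nonneg_of_nonpos (by positivity)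
          (mul_nonpos_of_nonneg_of_nonpos (by positivity) hcon))
    linarith
  calc (2 : ℝ) ^ v₀.sz ≤ 2 ^ (Cg + m * n) * (2 ^ (Cg + Cg * l) * (2 ^ (Cg + m * b.c₄) *
      SJ (scl b.c₄ D) (w + l) t₁ x)) := key
    _ = 2 ^ (3 * Cg + Cg * l + m * b.c₄ + m * n) * SJ (scl b.c₄ D) (w + l) t₁ x := by
        rw [← mul_assoc, ← mul_assoc, ← pow_add, ← pow_add]
        congr 2
        ring
    _ ≤ 2 ^ (rgv b (shv b l v₀ v₁) - b.c₁) * SJ (scl b.c₄ D) (w + l) t₁ x := by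
        refine mul_le_mul_of_nonneg_right (pow_le_pow_right₀ (by norm_num) ?_) hS.le
        have hq := qq_pos h.l1 v₁.al
        have hlq := le_qq l v₁.al
        have h6 := rg_room (y := 3 * Cg + Cg * l + m * b.c₄) hP l h.l1 v₀ v₁ (by
          have f1 : Cg * l ≤ Cg * qq l v₁.al := Nat.mul_le_mul_left _ hlq
          have f2 : 3 * Cg * 1 ≤ 3 * Cg * qq l v₁.al := Nat.mul_le_mul_left _ hq
          have f3 : 15 * Cg * qq l v₁.al = 3 * Cg * qq l v₁.al + Cg * qq l v₁.al +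
            11 * (Cg * qq l v₁.al) := by ring
          omega)
        rw [← hn] at h6
        omega

/-- The constant of the size of the points. -/
def rC (m Cg c₄ rg : ℕ) : ℕ := (m + 1 + Cg) * rg + (4 * Cg + m * c₄ + 1)

/-- **The size of the body for the points.** -/
theorem Pr.siz (hC : Cur m E Cg) (hP : Cst P b Cg g) (h : Pr P J w l c k a x t₀ t₁ v₀ v₁) :
    (2 : ℝ) ^ ((crv P b J w l c k a t₀ v₀ (shv b l v₀ v₁)).sz -
        rC m Cg b.c₄ (rgv b (shv b l v₀ v₁))) ≤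
      SJ (scl b.c₄ (crB P b a c.c.B v₀.c.B (shv b l v₀ v₁))) (w + l) t₁ x ∧
    SJ (scl b.c₄ (crB P b a c.c.B v₀.c.B (shv b l v₀ v₁))) (w + l) t₁ x ≤
      2 ^ ((crv P b J w l c k a t₀ v₀ (shv b l v₀ v₁)).sz +
        rC m Cg b.c₄ (rgv b (shv b l v₀ v₁))) := by
  obtain ⟨rg, hrg⟩ : ∃ rg, rg = rgv b (shv b l v₀ v₁) := ⟨_, rfl⟩
  have hsz := h.crv_sz₁ (b := b) hC hP
  have hnr := h.near_rg (b := b) hP
  have hal := two_le_rg (l := l) hP v₀ v₁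
  have hlt := lt_qq h.l1 v₁.al
  rw [← hrg] at hsz hnr hal ⊢
  obtain ⟨D, hD⟩ : ∃ D, D = crB P b a c.c.B v₀.c.B (shv b l v₀ v₁) := ⟨_, rfl⟩
  rw [← hD] at hnr ⊢
  obtain ⟨z, hz⟩ : ∃ z, z = (crv P b J w l c k a t₀ v₀ (shv b l v₀ v₁)).sz := ⟨_, rfl⟩
  rw [← hz] at hsz ⊢
  rw [abs_le] at hsz
  have hnr' : D.near (2 ^ rg) v₁.c.B := hnr.mono (pow_le_pow_right₀ (by norm_num) (Nat.sub_le _ _))
  have s1 : (2 : ℝ) ^ v₁.sz ≤ SJ v₁.c.B (w + l) t₁ x :=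
    h.ok₁.sz.trans (hC.sj_mono _ _ _ _ _ _ (sw_div h.ok₁.sb))
  have s2 : SJ v₁.c.B (w + l) t₁ x ≤ 2 ^ (Cg + Cg * v₁.al) * 2 ^ (v₁.sz + 1) :=
    (hC.sj_grow v₁.c.B x (w + l) v₁.al t₁ (v₁.sw t₁) (sw_div h.ok₁.sb)).trans
      (mul_le_mul_of_nonneg_left h.ok₁.sz'.le (by positivity))
  have d1 := hC.sj_le D v₁.c.B x (w + l) t₁ rg hnr'.1
  have d2 := hC.sj_le v₁.c.B D x (w + l) t₁ rg hnr'.2
  have c1 := SJ_le_scl hC D x (w + l) t₁ b.c₄
  have c2 := SJ_scl_le hC D x (w + l) t₁ b.c₄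
  have hval : v₁.al ≤ rg := by omega
  constructor
  · have k1 : (2 : ℝ) ^ v₁.sz ≤ 2 ^ (2 * Cg + m * rg + m * b.c₄) *
        SJ (scl b.c₄ D) (w + l) t₁ x := by
      refine s1.trans (d1.trans ((mul_le_mul_of_nonneg_left c1 (by positivity)).trans (le_of_eq ?_)))
      rw [← mul_assoc, ← pow_add]
      congr 2
      ring
    have hp : (0 : ℝ) < 2 ^ (2 * Cg + m * rg + m * b.c₄) := by positivity
    rw [mul_comm, ← div_le_iff₀ hp] at k1
    refine le_trans ?_ k1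
    rw [div_eq_mul_inv, ← zpow_natCast, ← zpow_neg, ← zpow_add₀ (by norm_num)]
    refine zpow_le_zpow_right₀ (by norm_num) ?_
    have : ((2 * Cg + m * rg + m * b.c₄ : ℕ) : ℤ) + rg ≤ (rC m Cg b.c₄ rg : ℤ) := by
      have : 2 * Cg + m * rg + m * b.c₄ + rg ≤ rC m Cg b.c₄ rg := by
        unfold rC
        have : 0 ≤ Cg * rg := Nat.zero_le _
        nlinarith
      exact_mod_cast this
    linarith [hsz.1, hsz.2]
  · have k1 : SJ (scl b.c₄ D) (w + l) t₁ x ≤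
        2 ^ (3 * Cg + m * rg + Cg * v₁.al + 1) * 2 ^ v₁.sz := by
      refine c2.trans ((mul_le_mul_of_nonneg_left (d2.trans (mul_le_mul_of_nonneg_left s2
        (by positivity))) (by positivity)).trans (le_of_eq ?_))
      rw [zpow_add_one₀ (by norm_num)]
      have e : 3 * Cg + m * rg + Cg * v₁.al + 1 = Cg + ((Cg + m * rg) + ((Cg + Cg * v₁.al) + 1)) := by
        ring
      rw [e]
      simp only [pow_add]
      ring
    refine k1.trans ?_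
    rw [← zpow_natCast, ← zpow_add₀ (by norm_num)]
    refine zpow_le_zpow_right₀ (by norm_num) ?_
    have : ((3 * Cg + m * rg + Cg * v₁.al + 1 : ℕ) : ℤ) + rg ≤ (rC m Cg b.c₄ rg : ℤ) := by
      have : 3 * Cg + m * rg + Cg * v₁.al + 1 + rg ≤ rC m Cg b.c₄ rg := by
        unfold rC
        have : Cg * v₁.al ≤ Cg * rg := Nat.mul_le_mul_left _ hval
        have : 0 ≤ m * b.c₄ := Nat.zero_le _
        nlinarith
      exact_mod_cast this
    linarith [hsz.1, hsz.2]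

theorem log_rC (m Cg c₄ rg : ℕ) : Real.log (2 + rC m Cg c₄ rg) ≤
    (Real.log (m + 6 * Cg + m * c₄ + 3) / Real.log 2 + 1) * Real.log (2 + rg) := by
  have hlog2 : 0 < Real.log 2 := Real.log_pos (by norm_num)
  have hr : (0 : ℝ) ≤ rg := Nat.cast_nonneg _
  have hm : (0 : ℝ) ≤ m := Nat.cast_nonneg _
  have hg : (0 : ℝ) ≤ Cg := Nat.cast_nonneg _
  have hc : (0 : ℝ) ≤ c₄ := Nat.cast_nonneg _
  have hmc : (0 : ℝ) ≤ m * c₄ := mul_nonneg hm hc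
  have h1 : (2 : ℝ) + rC m Cg c₄ rg ≤ (m + 6 * Cg + m * c₄ + 3) * (2 + rg) := by
    unfold rC
    push_cast
    have : 0 ≤ (m : ℝ) * c₄ * rg := mul_nonneg hmc hr
    have : 0 ≤ (Cg : ℝ) * rg := mul_nonneg hg hr
    nlinarith
  have h2 := Real.log_le_log (by positivity) h1
  rw [Real.log_mul (by positivity) (by positivity)] at h2
  have h3 : Real.log 2 ≤ Real.log (2 + rg) := Real.log_le_log (by norm_num) (by linarith)
  have h4 : 0 ≤ Real.log (m + 6 * Cg + m * c₄ + 3) := Real.log_nonneg (by linarith)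
  have h5 : Real.log (m + 6 * Cg + m * c₄ + 3) ≤
      Real.log (m + 6 * Cg + m * c₄ + 3) / Real.log 2 * Real.log (2 + rg) := by
    calc Real.log (m + 6 * Cg + m * c₄ + 3) =
        Real.log (m + 6 * Cg + m * c₄ + 3) / Real.log 2 * Real.log 2 := by field_simp
      _ ≤ _ := mul_le_mul_of_nonneg_left h3 (by positivity)
  rw [add_mul, one_mul]
  linarith

end pair

end Pool.GC
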